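import Pool.Agent.helper35.MR.SpecB

/-!
# mr:CP. Functions of the order type which depend on one or two coordinates
-/

set_option autoImplicit false

open Finset

namespace Pool.Agent.helper35.MR

open Pool.Agent.RRank

theorem CP : CP_stmt := by
  intro K _ ψ hψ
  refine ⟨fun α hα x => ?_, fun α β hαβ hd => ?_⟩
  · have h1 : ψ x = ψ (fun _ => x α) := hα _ _ fun γ hγ => by
      rw [Finset.mem_singleton] at hγ
      rw [hγ]
    rw [h1]
    refine hψ _ _ fun γ δ => ?_
    simp
  · let a : Ordering → ℤ := fun o => match o with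
      | Ordering.lt => -1
      | Ordering.eq => 0
      | Ordering.gt => 1
    refine ⟨fun o => ψ (fun γ => if γ = α then a o else 0), fun x => ?_⟩
    have h1 : ψ x = ψ (fun γ => if γ = α then x α else x β) := hd _ _ fun γ hγ => by
      rw [Finset.mem_insert, Finset.mem_singleton] at hγ
      rcases hγ with h | h
      · rw [h, if_pos rfl]
      · rw [h, if_neg hαβ.symm]
    rw [h1]
    refine hψ _ _ fun γ δ => ?_
    rcases lt_trichotomy (x α) (x β) with h | h | h
    · have ho : cmp (x α) (x β) = Ordering.lt := (cmp_eq_lt_iff _ _).mpr h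
      rw [ho]
      by_cases c1 : γ = α <;> by_cases c2 : δ = α <;> simp [c1, c2, a, h, not_lt.mpr h.le]
    · have ho : cmp (x α) (x β) = Ordering.eq := (cmp_eq_eq_iff _ _).mpr h
      rw [ho]
      by_cases c1 : γ = α <;> by_cases c2 : δ = α <;> simp [c1, c2, a, h]
    · have ho : cmp (x α) (x β) = Ordering.gt := (cmp_eq_gt_iff _ _).mpr h
      rw [ho]
      by_cases c1 : γ = α <;> by_cases c2 : δ = α <;> simp [c1, c2, a, h, not_lt.mpr h.le]

end Pool.Agent.helper35.MR
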